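import Mathlib

/-!
MP_460c01_lc: two deterministic top-down tree transducers with `n₁` and `n₂` states are equivalent
if they agree on all input trees of height at most `2 ^ (n₁ + n₂) * (n₁ + n₂ + 1)`.
-/

namespace Pool.Agent.Results.MP_460c01_lc.HeightBound

open Finset

/-- Finite trees over the ranked alphabet `S` with rank map `rk`, whose leaves may also be variables
from `X`. -/
inductive Tm (S : Type) (rk : S → ℕ) (X : Type) : Type
  | var (x : X) : Tm S rk X
  | node (s : S) (c : Fin (rk s) → Tm S rk X) : Tm S rk X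

/-- Finite trees over the ranked alphabet `S`. -/
abbrev Tree (S : Type) (rk : S → ℕ) : Type := Tm S rk Empty

/-- Height: the number of nodes on a longest root-to-leaf path. -/
def height {S : Type} {rk : S → ℕ} : Tree S rk → ℕ
  | .var x => x.elim
  | .node _ c => 1 + univ.sup fun i => height (c i)

/-- Substitution of partially defined trees `f x` for the variables `x`. The result is defined iff
`f x` is defined for all variables which occur. -/
def Tm.evalO {S : Type} {rk : S → ℕ} {X : Type} (f : X → Option (Tree S rk)) :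
    Tm S rk X → Option (Tree S rk)
  | .var x => f x
  | .node s c => if h : ∀ i, (Tm.evalO f (c i)).isSome then
      some (.node s fun i => (Tm.evalO f (c i)).get (h i)) else none

/-- Deterministic top-down tree transducers. The right-hand side of the rule for `(q, σ)` is a tree
over the output alphabet whose leaves may also be pairs `(q', i)`, which stand for `q'(x_i)`. -/
structure DT (S : Type) (rS : S → ℕ) (D : Type) (rD : D → ℕ) where
  /-- states -/
  Q : Type
  finQ : Finite Q
  /-- initial state -/
  q0 : Q
  /-- rules -/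
  rule : Q → (s : S) → Option (Tm D rD (Q × Fin (rS s)))

section transducers

variable {S : Type} {rS : S → ℕ} {D : Type} {rD : D → ℕ}

/-- The output of the transducer on an input tree, started in the state `q`. -/
def DT.val (M : DT S rS D rD) : Tree S rS → M.Q → Option (Tree D rD)
  | .var x, _ => x.elim
  | .node s c, q => (M.rule q s).bind (Tm.evalO fun x => M.val (c x.2) x.1)

/-- The partial function realized by the transducer. -/
def DT.tau (M : DT S rS D rD) (s : Tree S rS) : Option (Tree D rD) := M.val s M.q0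

end transducers

/-! ### Terms -/

section terms

variable {S : Type} {rk : S → ℕ} {X Y Z : Type}

/-- substitution -/
def Tm.bind (t : Tm S rk X) (f : X → Tm S rk Y) : Tm S rk Y :=
  match t with
  | .var x => f x
  | .node s c => .node s fun i => (c i).bind f

/-- the variable `x` occurs in the term -/
def Tm.Occ (x : X) : Tm S rk X → Prop
  | .var y => x = y
  | .node _ c => ∃ i, (c i).Occ x

/-- number of inner nodes and constants -/
def Tm.size : Tm S rk X → ℕ
  | .var _ => 0
  | .node _ c => 1 + ∑ i, (c i).size

lemma bind_bind (t : Tm S rk X) (f : X → Tm S rk Y) (g : Y → Tm S rk Z) :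
    (t.bind f).bind g = t.bind fun x => (f x).bind g := by
  induction t with
  | var x => rfl
  | node s c ih =>
    simp only [Tm.bind]
    congr 1
    funext i
    exact ih i

lemma bind_congr' (t : Tm S rk X) (f g : X → Tm S rk Y) (h : ∀ x, t.Occ x → f x = g x) :
    t.bind f = t.bind g := by
  induction t with
  | var x => exact h x rfl
  | node s c ih =>
    simp only [Tm.bind]
    congr 1
    funext i
    exact ih i fun x hx => h x ⟨i, hx⟩

lemma size_le (t : Tm S rk X) (x : X) (hx : t.Occ x) (u : X → Tree S rk) :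
    (u x).size ≤ (t.bind u).size := by
  induction t with
  | var y =>
    have : x = y := hx
    subst this
    exact le_rfl
  | node s c ih =>
    obtain ⟨i, hi⟩ := hx
    simp only [Tm.bind, Tm.size]
    have h1 := ih i hi
    have h2 := Finset.single_le_sum (f := fun i => ((c i).bind u).size)
      (fun _ _ => Nat.zero_le _) (Finset.mem_univ i)
    have h3 : ((c i).bind u).size ≤ ∑ i, ((c i).bind u).size := h2
    omega

lemma size_lt (s : S) (c : Fin (rk s) → Tm S rk X) (x : X) (hx : (Tm.node s c).Occ x)
    (u : X → Tree S rk) : (u x).size < ((Tm.node s c).bind u).size := by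
  obtain ⟨i, hi⟩ := hx
  have h1 := size_le (c i) x hi u
  have h2 := Finset.single_le_sum (f := fun i => ((c i).bind u).size)
    (fun _ _ => Nat.zero_le _) (Finset.mem_univ i)
  simp only [Tm.bind, Tm.size] at h2 ⊢
  omega

/-- elimination of a variable -/
lemma elim_var (a b : Tm S rk X) (hab : a ≠ b) (u0 : X → Tree S rk) (h0 : a.bind u0 = b.bind u0) :
    ∃ (x : X) (c : Tm S rk X), ¬ c.Occ x ∧
      ∀ u : X → Tree S rk, a.bind u = b.bind u → u x = c.bind u := by
  induction a generalizing b with
  | var x =>
    refine ⟨x, b, ?_, fun u hu => hu⟩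
    intro hx
    cases b with
    | var y =>
      have : x = y := hx
      subst this
      exact hab rfl
    | node s c =>
      have h1 := size_lt s c x hx u0
      rw [← h0] at h1
      exact lt_irrefl _ h1
  | node s c ih =>
    cases b with
    | var y =>
      refine ⟨y, .node s c, ?_, fun u hu => hu.symm⟩
      intro hy
      have h1 := size_lt s c y hy u0
      rw [h0] at h1
      exact lt_irrefl _ h1
    | node s' c' =>
      simp only [Tm.bind, Tm.node.injEq] at h0
      obtain ⟨rfl, h0⟩ := h0
      have h1 := eq_of_heq h0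
      have h2 : ∃ i, c i ≠ c' i := by
        by_contra hcon
        push Not at hcon
        exact hab (by rw [funext hcon])
      obtain ⟨i, hi⟩ := h2
      obtain ⟨x, d, hd1, hd2⟩ := ih i (c' i) hi (congrFun h1 i)
      refine ⟨x, d, hd1, fun u hu => hd2 u ?_⟩
      simp only [Tm.bind, Tm.node.injEq, true_and] at hu
      exact congrFun (eq_of_heq hu) i

end terms

/-! ### Sets of vectors of trees, their ranks and their equations -/

section ranks

variable {S : Type} {rk : S → ℕ} {P : Type}

/-- `V` is contained in the set of instances of a vector of terms with `m` variables -/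
def Cov (V : Set (P → Tree S rk)) (m : ℕ) : Prop :=
  ∃ t : P → Tm S rk (Fin m), ∀ v ∈ V, ∃ u : Fin m → Tree S rk, ∀ p, v p = (t p).bind u

/-- each equation which holds on `V` holds on `V'` -/
def Imp (V V' : Set (P → Tree S rk)) : Prop :=
  ∀ l r : Tm S rk P, (∀ v ∈ V, l.bind v = r.bind v) → ∀ v ∈ V', l.bind v = r.bind v

lemma cov_card [Finite P] (V : Set (P → Tree S rk)) : Cov V (Nat.card P) := by
  refine ⟨fun p => .var (Finite.equivFin P p), fun v _ => ⟨fun i => v ((Finite.equivFin P).symm i),
    fun p => ?_⟩⟩
  simp [Tm.bind]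

/-- the rank -/
noncomputable def rank (V : Set (P → Tree S rk)) : ℕ := sInf {m | Cov V m}

lemma cov_rank [Finite P] (V : Set (P → Tree S rk)) : Cov V (rank V) :=
  Nat.sInf_mem (s := {m | Cov V m}) ⟨_, cov_card V⟩

lemma rank_le_card [Finite P] (V : Set (P → Tree S rk)) : rank V ≤ Nat.card P :=
  Nat.sInf_le (cov_card V)

lemma rank_mono [Finite P] {V V' : Set (P → Tree S rk)} (h : V ⊆ V') : rank V ≤ rank V' := by
  apply Nat.sInf_le
  obtain ⟨t, ht⟩ := cov_rank V'
  exact ⟨t, fun v hv => ht v (h hv)⟩

lemma imp_of_rank [Finite P] (g0 : Tree S rk) {V V' : Set (P → Tree S rk)} (h : V ⊆ V')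
    (hne : V.Nonempty) (hr : rank V = rank V') : Imp V V' := by
  intro l r hlr
  obtain ⟨t, ht⟩ := cov_rank V'
  have hval : ∀ (w : Tm S rk P) (v : P → Tree S rk) (u : Fin (rank V') → Tree S rk),
      (∀ p, v p = (t p).bind u) → w.bind v = (w.bind t).bind u := by
    intro w v u hu
    rw [bind_bind]
    congr 1
    funext p
    exact hu p
  by_cases hab : l.bind t = r.bind t
  · intro v hv
    obtain ⟨u, hu⟩ := ht v hv
    rw [hval l v u hu, hval r v u hu, hab]
  · exfalso
    obtain ⟨v0, hv0⟩ := hne
    obtain ⟨u0, hu0⟩ := ht v0 (h hv0)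
    have h0 : (l.bind t).bind u0 = (r.bind t).bind u0 := by
      rw [← hval l v0 u0 hu0, ← hval r v0 u0 hu0]
      exact hlr v0 hv0
    obtain ⟨x, c, hc1, hc2⟩ := elim_var _ _ hab u0 h0
    obtain ⟨m, hm⟩ : ∃ m, rank V' = m + 1 := ⟨rank V' - 1, by have := x.2; omega⟩
    have hcov : Cov V m := by
      generalize rank V' = k at t ht x c hc1 hc2 hm hval u0 hu0 h0 hab
      subst hm
      -- the term `c` without the variable `x`
      let c' : Tm S rk (Fin m) := c.bind (x.insertNth (g0.bind Empty.elim) fun y => .var y)
      let ρ : Fin (m + 1) → Tm S rk (Fin m) := x.insertNth c' fun y => .var y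
      refine ⟨fun p => (t p).bind ρ, fun v hv => ?_⟩
      obtain ⟨u, hu⟩ := ht v (h hv)
      have h1 : (l.bind t).bind u = (r.bind t).bind u := by
        rw [← hval l v u hu, ← hval r v u hu]
        exact hlr v hv
      have h2 := hc2 u h1
      refine ⟨fun y => u (x.succAbove y), fun p => ?_⟩
      rw [hu p, bind_bind]
      congr 1
      funext y
      rcases eq_or_ne y x with hyx | hyx
      · rw [hyx]
        simp only [ρ, Fin.insertNth_apply_same]
        rw [h2]
        simp only [c']
        rw [bind_bind]
        apply bind_congr'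
        intro z hz
        have hzx : z ≠ x := by
          rintro rfl
          exact hc1 hz
        obtain ⟨y, rfl⟩ := Fin.exists_succAbove_eq hzx
        simp only [Fin.insertNth_apply_succAbove]
        rfl
      · obtain ⟨z, rfl⟩ := Fin.exists_succAbove_eq hyx
        simp only [ρ, Fin.insertNth_apply_succAbove]
        rfl
    have h3 : rank V ≤ m := Nat.sInf_le hcov
    omega

/-- products -/
lemma imp_prod {k : ℕ} (V V' : Fin k → Set (P → Tree S rk)) (h : ∀ i, Imp (V i) (V' i))
    (a b : Tm S rk (P × Fin k))
    (hab : ∀ v : Fin k → P → Tree S rk, (∀ i, v i ∈ V i) →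
      (a.bind fun x => v x.2 x.1) = b.bind fun x => v x.2 x.1)
    (v : Fin k → P → Tree S rk) (hv : ∀ i, v i ∈ V' i) :
    (a.bind fun x => v x.2 x.1) = b.bind fun x => v x.2 x.1 := by
  classical
  have key : ∀ A : Finset (Fin k), ∀ v : Fin k → P → Tree S rk, (∀ i ∈ A, v i ∈ V' i) →
      (∀ i ∉ A, v i ∈ V i) → (a.bind fun x => v x.2 x.1) = b.bind fun x => v x.2 x.1 := by
    intro A
    induction A using Finset.induction_on with
    | empty => exact fun v _ hv => hab v fun i => hv i (Finset.notMem_empty i)
    | insert i A hi ih =>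
      intro v hv1 hv2
      -- fix the other coordinates
      let f : P × Fin k → Tm S rk P := fun x =>
        if x.2 = i then .var x.1 else (v x.2 x.1).bind Empty.elim
      have hf : ∀ (t : Tm S rk (P × Fin k)) (w : P → Tree S rk),
          (t.bind f).bind w = t.bind fun x => (Function.update v i w) x.2 x.1 := by
        intro t w
        rw [bind_bind]
        congr 1
        funext x
        simp only [f]
        split_ifs with hx
        · rw [hx, Function.update_self]
          rfl
        · rw [Function.update_of_ne hx, bind_bind]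
          have : ∀ t : Tree S rk, (t.bind fun x => (Empty.elim x : Tm S rk P).bind w) = t := by
            intro t
            induction t with
            | var x => exact x.elim
            | node s c ih => simp only [Tm.bind]; congr 1; funext j; exact ih j
          exact this _
      have h1 := h i (a.bind f) (b.bind f) (by
        intro w hw
        rw [hf, hf]
        apply ih
        · intro j hj
          have : j ≠ i := fun e => hi (e ▸ hj)
          rw [Function.update_of_ne this]
          exact hv1 j (Finset.mem_insert_of_mem hj)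
        · intro j hj
          by_cases hji : j = i
          · subst hji
            rw [Function.update_self]
            exact hw
          · rw [Function.update_of_ne hji]
            exact hv2 j (by simp [hji, hj])) (v i) (hv1 i (Finset.mem_insert_self i A))
      rw [hf, hf, Function.update_eq_self] at h1
      exact h1
  exact key Finset.univ v (fun i _ => hv i) (fun i hi => absurd (Finset.mem_univ i) hi)

end ranks

/-! ### Evaluation of partially defined substitutions -/

section evalO

variable {S : Type} {rk : S → ℕ} {X : Type}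

lemma isSome_of_evalO (f : X → Option (Tree S rk)) (t : Tm S rk X)
    (h : (t.evalO f).isSome) : ∀ x, t.Occ x → (f x).isSome := by
  induction t with
  | var y =>
    intro x hx
    have : x = y := hx
    subst this
    exact h
  | node s c ih =>
    rintro x ⟨i, hi⟩
    unfold Tm.evalO at h
    split_ifs at h with h1
    · exact ih i (h1 i) x hi
    · exact absurd h (by simp)

lemma evalO_eq (g0 : Tree S rk) (f : X → Option (Tree S rk)) (t : Tm S rk X)
    (h : ∀ x, t.Occ x → (f x).isSome) : t.evalO f = some (t.bind fun x => (f x).getD g0) := by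
  induction t with
  | var y =>
    obtain ⟨z, hz⟩ := Option.isSome_iff_exists.mp (h y rfl)
    simp [Tm.evalO, Tm.bind, hz]
  | node s c ih =>
    have h1 : ∀ i, (c i).evalO f = some ((c i).bind fun x => (f x).getD g0) :=
      fun i => ih i fun x hx => h x ⟨i, hx⟩
    have h2 : ∀ i, ((c i).evalO f).isSome := fun i => by rw [h1]; rfl
    unfold Tm.evalO
    rw [dif_pos h2]
    simp only [Tm.bind]
    congr 2
    funext i
    simp [h1]

/-- renaming of the variables -/
def Tm.ren {Y : Type} (e : X → Y) : Tm S rk X → Tm S rk Y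
  | .var x => .var (e x)
  | .node s c => .node s fun i => (c i).ren e

lemma evalO_ren {Y : Type} (e : X → Y) (f : Y → Option (Tree S rk)) (t : Tm S rk X) :
    (t.ren e).evalO f = t.evalO fun x => f (e x) := by
  induction t with
  | var x => rfl
  | node s c ih =>
    simp only [Tm.ren, Tm.evalO]
    by_cases h : ∀ i, (((c i).ren e).evalO f).isSome
    · have h' : ∀ i, ((c i).evalO fun x => f (e x)).isSome := fun i => by rw [← ih]; exact h i
      rw [dif_pos h, dif_pos h']
      simp [ih]
    · have h' : ¬ ∀ i, ((c i).evalO fun x => f (e x)).isSome := by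
        intro h'
        exact h fun i => by rw [ih]; exact h' i
      rw [dif_neg h, dif_neg h']

end evalO

/-! ### The stabilization argument -/

section stab

variable {S : Type} {rS : S → ℕ} {D : Type} {rD : D → ℕ} (M : DT S rS D rD)

/-- the domain of a tree -/
def dom (s : Tree S rS) : Set M.Q := {q | (M.val s q).isSome}

/-- total outputs -/
def tv (g0 : Tree D rD) (s : Tree S rS) (q : M.Q) : Tree D rD := (M.val s q).getD g0

open Classical in
/-- the term computed at a node labelled `a` if the domain of the tree is `E` -/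
noncomputable def rt (g0 : Tree D rD) (a : S) (E : Set M.Q) (q : M.Q) : Tm D rD (M.Q × Fin (rS a)) :=
  if q ∈ E then (M.rule q a).getD (g0.bind Empty.elim) else g0.bind Empty.elim

lemma dom_node (a : S) (c c' : Fin (rS a) → Tree S rS) (h : ∀ i, dom M (c i) = dom M (c' i)) :
    dom M (.node a c) ⊆ dom M (.node a c') := by
  intro q hq
  simp only [dom, DT.val, Set.mem_ofPred_eq] at hq ⊢
  rcases hr : M.rule q a with _ | ζ
  · rw [hr] at hq; simp at hq
  · rw [hr] at hq
    simp only [Option.bind_some] at hq ⊢
    have h1 := isSome_of_evalO _ ζ hq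
    have h2 : ∀ x, ζ.Occ x → (M.val (c' x.2) x.1).isSome := by
      intro x hx
      have h3 : x.1 ∈ dom M (c x.2) := h1 x hx
      rw [h] at h3
      exact h3
    obtain ⟨g, hg⟩ := Option.isSome_iff_exists.mp hq
    rw [evalO_eq g _ ζ h2]
    rfl

lemma dom_node_eq (a : S) (c c' : Fin (rS a) → Tree S rS) (h : ∀ i, dom M (c i) = dom M (c' i)) :
    dom M (.node a c) = dom M (.node a c') :=
  Set.Subset.antisymm (dom_node M a c c' h) (dom_node M a c' c fun i => (h i).symm)

lemma bind_elim (g0 : Tree D rD) {X : Type} (u : X → Tree D rD) :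
    ((g0.bind Empty.elim : Tm D rD X).bind u) = g0 := by
  rw [bind_bind]
  have : ∀ t : Tree D rD, (t.bind fun x => (Empty.elim x : Tm D rD X).bind u) = t := by
    intro t
    induction t with
    | var x => exact x.elim
    | node s c ih => simp only [Tm.bind]; congr 1; funext j; exact ih j
  exact this g0

lemma tv_node (g0 : Tree D rD) (a : S) (c : Fin (rS a) → Tree S rS) (q : M.Q) :
    tv M g0 (.node a c) q = (rt M g0 a (dom M (.node a c)) q).bind fun x => tv M g0 (c x.2) x.1 := by
  by_cases hq : q ∈ dom M (.node a c)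
  · have hq' := hq
    simp only [dom, DT.val, Set.mem_ofPred_eq] at hq'
    unfold tv rt
    rw [if_pos hq]
    simp only [DT.val]
    rcases hr : M.rule q a with _ | ζ
    · rw [hr] at hq'; simp at hq'
    · rw [hr] at hq'
      simp only [Option.bind_some] at hq' ⊢
      rw [evalO_eq g0 _ ζ (isSome_of_evalO _ ζ hq')]
      rfl
  · unfold tv rt
    rw [if_neg hq, bind_elim]
    have h1 : M.val (.node a c) q = none := by
      simp only [dom, Set.mem_ofPred_eq] at hq
      simpa using hq
    rw [h1]
    rfl

/-- the vectors of outputs of the trees of height at most `h` with the domain `E` -/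
def VV (g0 : Tree D rD) (h : ℕ) (E : Set M.Q) : Set (M.Q → Tree D rD) :=
  {v | ∃ s, height s ≤ h ∧ dom M s = E ∧ tv M g0 s = v}

lemma VV_mono (g0 : Tree D rD) {h h' : ℕ} (hh : h ≤ h') (E : Set M.Q) :
    VV M g0 h E ⊆ VV M g0 h' E := by
  rintro v ⟨s, h1, h2, h3⟩
  exact ⟨s, h1.trans hh, h2, h3⟩

lemma height_node (a : S) (c : Fin (rS a) → Tree S rS) (h : ℕ) :
    height (.node a c) ≤ h + 1 ↔ ∀ i, height (c i) ≤ h := by
  simp only [height]
  rw [add_comm, Nat.add_le_add_iff_right, Finset.sup_le_iff]
  simp

/-- the stability of the equations is inherited -/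
lemma imp_succ (g0 : Tree D rD) (h : ℕ) (hI : ∀ E, Imp (VV M g0 h E) (VV M g0 (h + 1) E)) :
    ∀ E, Imp (VV M g0 (h + 1) E) (VV M g0 (h + 1 + 1) E) := by
  rintro E l r hlr v ⟨s, hs, hE, rfl⟩
  rcases s with x | ⟨a, c⟩
  · exact x.elim
  rw [height_node] at hs
  have hv : tv M g0 (.node a c) = fun q =>
      (rt M g0 a E q).bind fun x => tv M g0 (c x.2) x.1 := by
    funext q
    rw [tv_node, hE]
  rw [hv, ← bind_bind, ← bind_bind]
  refine imp_prod (fun i => VV M g0 h (dom M (c i))) (fun i => VV M g0 (h + 1) (dom M (c i)))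
    (fun i => hI _) (l.bind (rt M g0 a E)) (r.bind (rt M g0 a E)) ?_ (fun i => tv M g0 (c i))
    (fun i => ⟨c i, hs i, rfl, rfl⟩)
  intro w hw
  choose c' hc1 hc2 hc3 using hw
  have h1 : dom M (.node a c') = E := by rw [← hE]; exact dom_node_eq M a c' c hc2
  have h2 := hlr (tv M g0 (.node a c')) ⟨_, (height_node a c' h).mpr hc1, h1, rfl⟩
  have hv' : tv M g0 (.node a c') = fun q => (rt M g0 a E q).bind fun x => w x.2 x.1 := by
    funext q
    rw [tv_node, h1]
    congr 1
    funext x
    rw [hc3]
  rw [hv', ← bind_bind, ← bind_bind] at h2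
  exact h2

/-- the stability of the set of domains is inherited -/
lemma ne_succ (g0 : Tree D rD) (h : ℕ)
    (hI : ∀ E, (VV M g0 (h + 1) E).Nonempty → (VV M g0 h E).Nonempty) :
    ∀ E, (VV M g0 (h + 1 + 1) E).Nonempty → (VV M g0 (h + 1) E).Nonempty := by
  rintro E ⟨v, s, hs, hE, -⟩
  rcases s with x | ⟨a, c⟩
  · exact x.elim
  rw [height_node] at hs
  have h1 : ∀ i, ∃ c', height c' ≤ h ∧ dom M c' = dom M (c i) := by
    intro i
    obtain ⟨_, c', h1, h2, _⟩ := hI (dom M (c i)) ⟨_, c i, hs i, rfl, rfl⟩
    exact ⟨c', h1, h2⟩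
  choose c' h2 h3 using h1
  exact ⟨_, .node a c', (height_node a c' h).mpr h2, by rw [← hE]; exact dom_node_eq M a c' c h3,
    rfl⟩

open Classical in
/-- the potential -/
noncomputable def pot [Fintype (Set M.Q)] (g0 : Tree D rD) (h : ℕ) : ℕ :=
  ∑ E : Set M.Q, if (VV M g0 h E).Nonempty then rank (VV M g0 h E) + 1 else 0

lemma exists_stable [Finite M.Q] (g0 : Tree D rD) :
    ∃ h ≤ 2 ^ Nat.card M.Q * (Nat.card M.Q + 1),
      (∀ E, Imp (VV M g0 h E) (VV M g0 (h + 1) E)) ∧
      (∀ E, (VV M g0 (h + 1) E).Nonempty → (VV M g0 h E).Nonempty) := by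
  classical
  have : Fintype M.Q := Fintype.ofFinite _
  have hmono : ∀ h E, (if (VV M g0 h E).Nonempty then rank (VV M g0 h E) + 1 else 0) ≤
      (if (VV M g0 (h + 1) E).Nonempty then rank (VV M g0 (h + 1) E) + 1 else 0) := by
    intro h E
    split_ifs with h1 h2 h2
    · exact Nat.add_le_add_right (rank_mono (VV_mono M g0 (Nat.le_succ h) E)) 1
    · exact absurd (h1.mono (VV_mono M g0 (Nat.le_succ h) E)) h2
    · exact Nat.zero_le _
    · exact le_rfl
  have hle : ∀ h, pot M g0 h ≤ 2 ^ Nat.card M.Q * (Nat.card M.Q + 1) := by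
    intro h
    unfold pot
    calc _ ≤ ∑ _E : Set M.Q, (Nat.card M.Q + 1) := by
          apply Finset.sum_le_sum
          intro E _
          split_ifs
          · exact Nat.add_le_add_right (rank_le_card _) 1
          · exact Nat.zero_le _
      _ = _ := by
          rw [Finset.sum_const, smul_eq_mul, Finset.card_univ, Fintype.card_set,
            Nat.card_eq_fintype_card]
  have hex : ∃ h ≤ 2 ^ Nat.card M.Q * (Nat.card M.Q + 1), pot M g0 h = pot M g0 (h + 1) := by
    by_contra hcon
    push Not at hcon
    have h1 : ∀ h ≤ 2 ^ Nat.card M.Q * (Nat.card M.Q + 1) + 1, h ≤ pot M g0 h := by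
      intro h
      induction h with
      | zero => exact fun _ => Nat.zero_le _
      | succ h ih =>
        intro hh
        have h2 := ih (by omega)
        have h3 := hcon h (by omega)
        have h4 : pot M g0 h ≤ pot M g0 (h + 1) := Finset.sum_le_sum fun E _ => hmono h E
        omega
    have h5 := h1 _ le_rfl
    have h6 := hle (2 ^ Nat.card M.Q * (Nat.card M.Q + 1) + 1)
    omega
  obtain ⟨h, hh, hpot⟩ := hex
  have heq : ∀ E, (if (VV M g0 h E).Nonempty then rank (VV M g0 h E) + 1 else 0) =
      (if (VV M g0 (h + 1) E).Nonempty then rank (VV M g0 (h + 1) E) + 1 else 0) := by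
    intro E
    exact (Finset.sum_eq_sum_iff_of_le fun E _ => hmono h E).mp hpot E (Finset.mem_univ E)
  have hne : ∀ E, (VV M g0 (h + 1) E).Nonempty → (VV M g0 h E).Nonempty := by
    intro E h1
    by_contra h2
    have h3 := heq E
    rw [if_neg h2, if_pos h1] at h3
    omega
  refine ⟨h, hh, fun E => ?_, hne⟩
  by_cases h1 : (VV M g0 (h + 1) E).Nonempty
  · have h2 := hne E h1
    have h3 := heq E
    rw [if_pos h1, if_pos h2] at h3
    exact imp_of_rank g0 (VV_mono M g0 (Nat.le_succ h) E) h2 (by omega)
  · intro l r _ v hv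
    exact absurd ⟨v, hv⟩ h1

/-- Two states which agree on the trees of small height agree on all trees. -/
theorem main [Finite M.Q] (q q' : M.Q)
    (hq : ∀ s, height s ≤ 2 ^ Nat.card M.Q * (Nat.card M.Q + 1) → M.val s q = M.val s q')
    (s : Tree S rS) : M.val s q = M.val s q' := by
  rcases isEmpty_or_nonempty (Tree D rD) with he | ⟨⟨g0⟩⟩
  · rcases h1 : M.val s q with _ | t
    · rcases h2 : M.val s q' with _ | t'
      · rfl
      · exact he.elim t'
    · exact he.elim t
  obtain ⟨h, hh, hI, hN⟩ := exists_stable M g0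
  have hI' : ∀ k, (∀ E, Imp (VV M g0 (h + k) E) (VV M g0 (h + k + 1) E)) ∧
      (∀ E, (VV M g0 (h + k + 1) E).Nonempty → (VV M g0 (h + k) E).Nonempty) := by
    intro k
    induction k with
    | zero => exact ⟨hI, hN⟩
    | succ k ih => exact ⟨imp_succ M g0 _ ih.1, ne_succ M g0 _ ih.2⟩
  have hI2 : ∀ k, (∀ E, Imp (VV M g0 h E) (VV M g0 (h + k) E)) ∧
      (∀ E, (VV M g0 (h + k) E).Nonempty → (VV M g0 h E).Nonempty) := by
    intro k
    induction k with
    | zero => exact ⟨fun E l r hlr => hlr, fun E => id⟩
    | succ k ih =>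
      exact ⟨fun E l r hlr => (hI' k).1 E l r (ih.1 E l r hlr), fun E h1 => ih.2 E ((hI' k).2 E h1)⟩
  have hsmall : ∀ s', height s' ≤ h → M.val s' q = M.val s' q' := fun s' hs' => hq s' (hs'.trans hh)
  have hmem : tv M g0 s ∈ VV M g0 (h + height s) (dom M s) :=
    ⟨s, Nat.le_add_left _ _, rfl, rfl⟩
  -- the domains
  have hdom : (M.val s q).isSome = (M.val s q').isSome := by
    obtain ⟨_, s', h1, h2, _⟩ := (hI2 (height s)).2 (dom M s) ⟨_, hmem⟩
    have h3 := hsmall s' h1
    have h4 : ∀ p : M.Q, (M.val s p).isSome = (M.val s' p).isSome := by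
      intro p
      have : p ∈ dom M s' ↔ p ∈ dom M s := by rw [h2]
      simp only [dom, Set.mem_ofPred_eq] at this
      exact (Bool.eq_iff_iff.mpr this).symm
    rw [h4, h4, h3]
  -- the outputs
  have hout : tv M g0 s q = tv M g0 s q' := by
    refine (hI2 (height s)).1 (dom M s) (.var q) (.var q') ?_ _ hmem
    rintro _ ⟨s', h1, _, rfl⟩
    change tv M g0 s' q = tv M g0 s' q'
    unfold tv
    rw [hsmall s' h1]
  rcases h1 : M.val s q with _ | t
  · rcases h2 : M.val s q' with _ | t'
    · rfl
    · rw [h1, h2] at hdom; simp at hdom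
  · rcases h2 : M.val s q' with _ | t'
    · rw [h1, h2] at hdom; simp at hdom
    · unfold tv at hout
      rw [h1, h2] at hout
      simp only [Option.getD_some] at hout
      rw [hout]

end stab

/-! ### Disjoint unions -/

section union

variable {S : Type} {rS : S → ℕ} {D : Type} {rD : D → ℕ}

/-- the disjoint union of two transducers -/
def un (M₁ M₂ : DT S rS D rD) : DT S rS D rD where
  Q := M₁.Q ⊕ M₂.Q
  finQ := by have := M₁.finQ; have := M₂.finQ; infer_instance
  q0 := .inl M₁.q0
  rule
    | .inl q, s => (M₁.rule q s).map (Tm.ren fun x => (.inl x.1, x.2))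
    | .inr q, s => (M₂.rule q s).map (Tm.ren fun x => (.inr x.1, x.2))

/-- first component -/
def il (M₁ M₂ : DT S rS D rD) (q : M₁.Q) : (un M₁ M₂).Q := .inl q

/-- second component -/
def ir (M₁ M₂ : DT S rS D rD) (q : M₂.Q) : (un M₁ M₂).Q := .inr q

lemma val_il (M₁ M₂ : DT S rS D rD) (s : Tree S rS) (q : M₁.Q) :
    (un M₁ M₂).val s (il M₁ M₂ q) = M₁.val s q := by
  induction s generalizing q with
  | var x => exact x.elim
  | node a c ih =>
    have h1 : (un M₁ M₂).rule (il M₁ M₂ q) a =
        (M₁.rule q a).map (Tm.ren fun x => (il M₁ M₂ x.1, x.2)) := rfl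
    simp only [DT.val, h1]
    rcases M₁.rule q a with _ | ζ
    · rfl
    · simp only [Option.map_some, Option.bind_some]
      rw [evalO_ren]
      congr 1
      funext x
      exact ih x.2 x.1

lemma val_ir (M₁ M₂ : DT S rS D rD) (s : Tree S rS) (q : M₂.Q) :
    (un M₁ M₂).val s (ir M₁ M₂ q) = M₂.val s q := by
  induction s generalizing q with
  | var x => exact x.elim
  | node a c ih =>
    have h1 : (un M₁ M₂).rule (ir M₁ M₂ q) a =
        (M₂.rule q a).map (Tm.ren fun x => (ir M₁ M₂ x.1, x.2)) := rfl
    simp only [DT.val, h1]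
    rcases M₂.rule q a with _ | ζ
    · rfl
    · simp only [Option.map_some, Option.bind_some]
      rw [evalO_ren]
      congr 1
      funext x
      exact ih x.2 x.1

end union

/-- There is a function `H`, namely `H n₁ n₂ = 2 ^ (n₁ + n₂) * (n₁ + n₂ + 1)`, such that any two
deterministic top-down tree transducers with `n₁` and `n₂` states, over any finite ranked alphabets,
are equivalent whenever they agree on all input trees of height at most `H n₁ n₂`. -/
theorem result : ∃ H : ℕ → ℕ → ℕ, (∀ n₁ n₂, H n₁ n₂ = 2 ^ (n₁ + n₂) * (n₁ + n₂ + 1)) ∧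
    ∀ (S : Type) [Finite S] (rS : S → ℕ) (D : Type) [Finite D] (rD : D → ℕ)
      (M₁ M₂ : DT S rS D rD),
      (∀ s : Tree S rS, height s ≤ H (Nat.card M₁.Q) (Nat.card M₂.Q) → M₁.tau s = M₂.tau s) →
      M₁.tau = M₂.tau := by
  refine ⟨fun n₁ n₂ => 2 ^ (n₁ + n₂) * (n₁ + n₂ + 1), fun _ _ => rfl, ?_⟩
  intro S _ rS D _ rD M₁ M₂ h
  have := M₁.finQ
  have := M₂.finQ
  have hfin : Finite (un M₁ M₂).Q := (un M₁ M₂).finQ
  have hcard : Nat.card (un M₁ M₂).Q = Nat.card M₁.Q + Nat.card M₂.Q := by
    change Nat.card (M₁.Q ⊕ M₂.Q) = _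
    rw [Nat.card_sum]
  funext s
  have h1 := main (un M₁ M₂) (il M₁ M₂ M₁.q0) (ir M₁ M₂ M₂.q0) (by
    intro s hs
    rw [val_il, val_ir]
    rw [hcard] at hs
    exact h s hs) s
  rw [val_il, val_ir] at h1
  exact h1

end Pool.Agent.Results.MP_460c01_lc.HeightBound
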